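import Mathlib
import Pool.Agent.X332.KS.Inv
import Pool.Agent.X332.KI.Slow

/-!
MP_0e7dfd_ag, Q1: the growth of the heights along Zariski-dense orbits of integral points.
-/

set_option autoImplicit false

namespace Pool.Agent.Results.MP_0e7dfd_ag.IntegralOrbits

open MvPolynomial Filter

/-- The forms in the prime ideal `P` define the projective variety `X`; the forms `F j` of one
degree are the coordinates of a dominant rational map `f` from `X` to `X` (a form `H` vanishes on
`X` if and only if `H ∘ F` does); and `x` is an orbit of `f` which is Zariski-dense in `X` (at the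
points where all `F j` vanish nothing is required of the next point). -/
structure DenseOrbit {k : Type} [Field k] {N : ℕ} (P : Ideal (MvPolynomial (Fin (N + 1)) k))
    (F : Fin (N + 1) → MvPolynomial (Fin (N + 1)) k) (x : ℕ → Fin (N + 1) → k) : Prop where
  prime : P.IsPrime
  forms : ∃ d, ∀ j, (F j).IsHomogeneous d
  dominant : ∀ (e : ℕ) (H : MvPolynomial (Fin (N + 1)) k), H.IsHomogeneous e →
    (aeval F H ∈ P ↔ H ∈ P)
  ne_zero : ∀ m, x m ≠ 0
  orbit : ∀ m i j, eval (x m) (F i) * x (m + 1) j = eval (x m) (F j) * x (m + 1) i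
  dense : ∀ (e : ℕ) (G : MvPolynomial (Fin (N + 1)) k), G.IsHomogeneous e →
    ((∀ m, eval (x m) G = 0) ↔ G ∈ P)

/-- For all large `m`, the point `v (m + 1)` of `ℤ_p ^ r` is the image of `v m` under the map with
the coordinates `h i` (polynomials with `p`-adic integers as coefficients), and the Jacobian
determinant of this map at `v m` is not divisible by `p`. -/
def EtaleOrbit {r : ℕ} (p : ℕ) [Fact p.Prime] (h : Fin r → MvPolynomial (Fin r) ℤ_[p])
    (v : ℕ → Fin r → ℤ_[p]) : Prop :=
  ∀ᶠ m in atTop, (∀ i, v (m + 1) i = eval (v m) (h i)) ∧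
    ¬ (p : ℤ_[p]) ∣ (Matrix.of fun i j => eval (v m) (pderiv j (h i))).det

/-- The variety of `P` is a point or a rational curve: it is the closure of the image of the affine
line under the map to the projective space with the coordinates `L` (polynomials in one variable). -/
def PointOrRationalCurve {k : Type} [Field k] {N : ℕ}
    (P : Ideal (MvPolynomial (Fin (N + 1)) k)) : Prop :=
  ∃ L : Fin (N + 1) → Polynomial k, L ≠ 0 ∧
    ∀ (e : ℕ) (G : MvPolynomial (Fin (N + 1)) k), G.IsHomogeneous e → (aeval L G = 0 ↔ G ∈ P)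

theorem eval_aeval_poly {k : Type} [Field k] {N : ℕ} (L : Fin (N + 1) → Polynomial k)
    (G : MvPolynomial (Fin (N + 1)) k) (a : k) :
    (aeval L G).eval a = eval (fun j => (L j).eval a) G := by
  induction G using MvPolynomial.induction_on with
  | C c => simp
  | add a b ha hb => rw [map_add, map_add, Polynomial.eval_add, ha, hb]
  | mul_X a i ha => rw [map_mul, map_mul, Polynomial.eval_mul, ha, aeval_X, eval_X]

theorem exists_class {k : Type} [Field k] {N : ℕ} {P : Ideal (MvPolynomial (Fin (N + 1)) k)}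
    (hP : P.IsPrime) {x : ℕ → Fin (N + 1) → k}
    (hdense : ∀ (e : ℕ) (G : MvPolynomial (Fin (N + 1)) k), G.IsHomogeneous e →
      (∀ᶠ m in atTop, eval (x m) G = 0) → G ∈ P) (a : ℕ) {M : ℕ} (hM : 0 < M) :
    ∃ i < M, ∀ (e : ℕ) (G : MvPolynomial (Fin (N + 1)) k), G.IsHomogeneous e →
      (∀ᶠ m in atTop, eval (x (a + i + M * m)) G = 0) → G ∈ P := by
  by_contra hcon
  push Not at hcon
  choose! e G hG h1 h2 using hcon
  have h3 : ∏ i ∈ Finset.range M, G i ∈ P := by
    refine hdense _ _ (IsHomogeneous.prod (Finset.range M) G e fun i hi =>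
      hG i (Finset.mem_range.1 hi)) ?_
    have h4 : ∀ᶠ m in atTop, ∀ i ∈ Finset.range M, eval (x (a + i + M * m)) (G i) = 0 := by
      rw [Filter.eventually_all_finset]
      exact fun i hi => h1 i (Finset.mem_range.1 hi)
    obtain ⟨b, hb⟩ := eventually_atTop.1 h4
    filter_upwards [eventually_ge_atTop (a + M * b)] with m hm
    rw [map_prod]
    refine Finset.prod_eq_zero (Finset.mem_range.2 (Nat.mod_lt (m - a) hM)) ?_
    have h5 := hb ((m - a) / M) ((Nat.le_div_iff_mul_le hM).2 (by rw [mul_comm]; omega))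
      ((m - a) % M) (Finset.mem_range.2 (Nat.mod_lt (m - a) hM))
    have h6 : a + (m - a) % M + M * ((m - a) / M) = m := by
      have := Nat.mod_add_div (m - a) M
      omega
    rwa [h6] at h5
  obtain ⟨i, hi, h4⟩ := hP.prod_mem_iff.1 h3
  exact h2 i (Finset.mem_range.1 hi) h4

theorem main (k : Type) [Field k] [CharZero k] {N r s : ℕ}
    (P : Ideal (MvPolynomial (Fin (N + 1)) k)) (F : Fin (N + 1) → MvPolynomial (Fin (N + 1)) k)
    (x : ℕ → Fin (N + 1) → k) (hx : DenseOrbit P F x) (p : ℕ) [Fact p.Prime]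
    (h : Fin r → MvPolynomial (Fin r) ℤ_[p]) (v : ℕ → Fin r → ℤ_[p]) (hv : EtaleOrbit p h v)
    (ρ : ℝ) (hρ1 : 1 ≤ ρ) (d : ℕ) (hρ : 1 + ρ ^ (p ^ (d * (r ^ 2 + 2 * r))) < (p : ℝ) ^ d)
    (w : ℕ → Fin s → ℤ) (Ψ : Fin s → MvPolynomial (Fin r) ℤ_[p]) (C : ℝ)
    (hw : ∀ᶠ m in atTop, ∀ i, (w m i : ℤ_[p]) = eval (v m) (Ψ i) ∧ |(w m i : ℝ)| ≤ C * ρ ^ m)
    (Φ : Fin (N + 1) → MvPolynomial (Fin s) k)
    (hΦ : ∀ m j, x m j = eval (fun l => (w m l : k)) (Φ j)) : PointOrRationalCurve P := by
  classical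
  by_cases hnc : ∀ m i j, x m i * x 0 j = x m j * x 0 i
  · refine ⟨fun j => Polynomial.C (x 0 j), fun h0 => hx.ne_zero 0 ?_, fun e G hG => ?_⟩
    · funext j
      exact Polynomial.C_eq_zero.1 (congrFun h0 j)
    · have h1 : aeval (fun j => Polynomial.C (x 0 j)) G = Polynomial.C (eval (x 0) G) := by
        induction G using MvPolynomial.induction_on with
        | C c => simp
        | add a b ha hb =>
          clear hG
          have e1 : ∀ G : MvPolynomial (Fin (N + 1)) k,
              aeval (fun j => Polynomial.C (x 0 j)) G = Polynomial.C (eval (x 0) G) := by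
            intro G
            induction G using MvPolynomial.induction_on with
            | C c => simp
            | add a b ha hb => rw [map_add, map_add, map_add, ha, hb]
            | mul_X a i ha => rw [map_mul, map_mul, map_mul, ha, aeval_X, eval_X]
          exact e1 _
        | mul_X a i ha =>
          clear hG
          have e1 : ∀ G : MvPolynomial (Fin (N + 1)) k,
              aeval (fun j => Polynomial.C (x 0 j)) G = Polynomial.C (eval (x 0) G) := by
            intro G
            induction G using MvPolynomial.induction_on with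
            | C c => simp
            | add a b ha hb => rw [map_add, map_add, map_add, ha, hb]
            | mul_X a i ha => rw [map_mul, map_mul, map_mul, ha, aeval_X, eval_X]
          exact e1 _
      rw [h1, Polynomial.C_eq_zero, ← hx.dense e G hG]
      refine ⟨fun h2 m => ?_, fun h2 => h2 0⟩
      obtain ⟨j0, hj0⟩ := Function.ne_iff.1 (hx.ne_zero 0)
      have hj0' : x 0 j0 ≠ 0 := hj0
      have h3 : x m = fun j => (x m j0 / x 0 j0) * x 0 j := by
        funext j
        rw [div_mul_eq_mul_div, eq_div_iff hj0']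
        exact hnc m j j0
      rw [h3, Pool.Agent.TH8.OR.eval_scale hG, h2, mul_zero]
  · have htail : ∀ (e : ℕ) (G : MvPolynomial (Fin (N + 1)) k), G.IsHomogeneous e →
        (∀ᶠ m in atTop, eval (x m) G = 0) → G ∈ P := by
      intro e G hG h1
      by_contra hGp
      exact Pool.Agent.TH8.OR.tail hx.prime hx.ne_zero hx.dense hnc hG hGp h1
    obtain ⟨m0, hm0⟩ := eventually_atTop.1 (hv.and hw)
    obtain ⟨a, L, hL, hpoly⟩ := Pool.Agent.X332.KI.poly_on_classes (σ := Fin r) (f := h)
      (u := fun m => v (m0 + m)) (fun m i => (hm0 (m0 + m) (by omega)).1.1 i)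
      (fun m => (hm0 (m0 + m) (by omega)).1.2) (ρ := ρ) hρ1 (d := d)
      (by rw [Fintype.card_fin]; exact hρ)
    obtain ⟨c, hc, hcl⟩ := exists_class hx.prime htail (m0 + a) hL
    choose q hq using fun l => hpoly (Ψ l) (fun m => w (m0 + m) l) (C * ρ ^ m0)
      (fun m => ((hm0 (m0 + m) (by omega)).2 l).1)
      (fun m => ((hm0 (m0 + m) (by omega)).2 l).2.trans (by rw [pow_add, mul_assoc])) k c
    have hxq : ∀ j l, x (m0 + a + c + L * j) l = (aeval q (Φ l)).eval (j : k) := by
      intro j l
      have e1 : (aeval q (Φ l)).eval (j : k) = eval (fun i => (q i).eval (j : k)) (Φ l) := by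
        have e2 : ∀ G : MvPolynomial (Fin s) k,
            (aeval q G).eval (j : k) = eval (fun i => (q i).eval (j : k)) G := by
          intro G
          induction G using MvPolynomial.induction_on with
          | C c => simp
          | add a b ha hb => rw [map_add, map_add, Polynomial.eval_add, ha, hb]
          | mul_X a i ha => rw [map_mul, map_mul, Polynomial.eval_mul, ha, aeval_X, eval_X]
        exact e2 _
      rw [e1, hΦ]
      congr 1
      congr 1
      funext i
      rw [← hq i j]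
      congr 2
      ring
    refine ⟨fun l => aeval q (Φ l), fun h0 => ?_, fun e G hG => ⟨fun h1 => hcl e G hG ?_,
      fun h1 => ?_⟩⟩
    · apply hx.ne_zero (m0 + a + c + L * 0)
      funext l
      rw [hxq, congrFun h0 l]
      simp
    · refine Eventually.of_forall fun j => ?_
      have h2 := congrArg (Polynomial.eval (j : k)) h1
      rw [eval_aeval_poly, Polynomial.eval_zero] at h2
      rw [← h2]
      congr 1
      congr 1
      funext l
      exact hxq j l
    · apply Polynomial.eq_zero_of_infinite_isRoot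
      refine Set.infinite_of_injective_forall_mem (Nat.cast_injective (R := k)) fun j => ?_
      change Polynomial.eval (j : k) _ = 0
      rw [eval_aeval_poly]
      rw [← (hx.dense e G hG).2 h1 (m0 + a + c + L * j)]
      congr 1
      congr 1
      funext l
      exact (hxq j l).symm

theorem abs_le_height {N : ℕ} (v : Fin N → ℤ) (x : Fin (N + 1) → ℚ) (h0 : x 0 = 1)
    (h1 : ∀ l : Fin N, x l.succ = v l) (l : Fin N) : |(v l : ℝ)| ≤ Height.mulHeight x := by
  have hx : x = ((↑) : ℤ → ℚ) ∘ (Fin.cons 1 v : Fin (N + 1) → ℤ) := by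
    funext j
    refine Fin.cases ?_ (fun l => ?_) j
    · rw [h0]
      simp
    · rw [h1]
      simp
  have hg : Finset.univ.gcd (Fin.cons 1 v : Fin (N + 1) → ℤ) = 1 := by
    have h2 : Finset.univ.gcd (Fin.cons 1 v : Fin (N + 1) → ℤ) ∣ 1 := by
      have h3 := Finset.gcd_dvd (f := (Fin.cons 1 v : Fin (N + 1) → ℤ)) (Finset.mem_univ 0)
      rwa [Fin.cons_zero] at h3
    have h4 := Finset.normalize_gcd (s := Finset.univ) (f := (Fin.cons 1 v : Fin (N + 1) → ℤ))
    rw [← h4]
    exact normalize_eq_one.2 (isUnit_of_dvd_one h2)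
  rw [hx, Rat.mulHeight_eq_max_abs_of_gcd_eq_one hg]
  have h2 : |v l| ≤ ⨆ i, |(Fin.cons 1 v : Fin (N + 1) → ℤ) i| := by
    have h3 := le_ciSup (Finite.bddAbove_range fun i => |(Fin.cons 1 v : Fin (N + 1) → ℤ) i|) l.succ
    rwa [Fin.cons_succ] at h3
  exact_mod_cast h2

/-- Let `X` be a projective variety over a field `k` of characteristic zero which is neither a point
nor a rational curve with a parametrization by polynomials of one variable (for instance, let `X` be
of dimension at least `2`), let `f` be a dominant rational map from `X` to `X`, and let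
`x 0, x 1, …` be an orbit of `f` in `X(k)` which is Zariski-dense in `X`. Let `v 0, v 1, …` be (for
all large `m`) an orbit of a polynomial map of `ℤ_p ^ r` which is étale modulo `p` at the points
`v m`, let the integers `w m i` be (for all large `m`) the values at `v m` of polynomials with
`p`-adic integers as coefficients, and let `1 ≤ ρ` and
`1 + ρ ^ (p ^ (d * (r ^ 2 + 2 * r))) < p ^ d` for some `d` (for instance, let `d = 2` and
`ρ ^ (p ^ (2 * r ^ 2 + 4 * r)) < 3`).

(1) If the points `x m` have homogeneous coordinates `Φ j (w m)`, where the `Φ j` are polynomials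
with coefficients in `k`, then for every `C` there are infinitely many `m` with
`max_i |w m i| > C * ρ ^ m`.

(2) If `k = ℚ` and `x m = (1 : w m)`, then for every `C` there are infinitely many `m` such that the
height of `x m` is greater than `C * ρ ^ m`. -/
theorem result :
    (∀ (k : Type) [Field k] [CharZero k] (N r s : ℕ)
      (P : Ideal (MvPolynomial (Fin (N + 1)) k)) (F : Fin (N + 1) → MvPolynomial (Fin (N + 1)) k)
      (x : ℕ → Fin (N + 1) → k), DenseOrbit P F x → ¬ PointOrRationalCurve P →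
      ∀ (p : ℕ) [Fact p.Prime] (h : Fin r → MvPolynomial (Fin r) ℤ_[p]) (v : ℕ → Fin r → ℤ_[p]),
      EtaleOrbit p h v → ∀ (w : ℕ → Fin s → ℤ) (Ψ : Fin s → MvPolynomial (Fin r) ℤ_[p]),
      (∀ᶠ m in atTop, ∀ i, (w m i : ℤ_[p]) = eval (v m) (Ψ i)) →
      ∀ Φ : Fin (N + 1) → MvPolynomial (Fin s) k,
      (∀ m j, x m j = eval (fun l => (w m l : k)) (Φ j)) →
      ∀ (C ρ : ℝ) (d : ℕ), 1 ≤ ρ → 1 + ρ ^ (p ^ (d * (r ^ 2 + 2 * r))) < (p : ℝ) ^ d →
      ∃ᶠ m in atTop, ∃ i, C * ρ ^ m < |(w m i : ℝ)|) ∧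
    (∀ (N r : ℕ) (P : Ideal (MvPolynomial (Fin (N + 1)) ℚ))
      (F : Fin (N + 1) → MvPolynomial (Fin (N + 1)) ℚ)
      (x : ℕ → Fin (N + 1) → ℚ), DenseOrbit P F x → ¬ PointOrRationalCurve P →
      ∀ (p : ℕ) [Fact p.Prime] (h : Fin r → MvPolynomial (Fin r) ℤ_[p]) (v : ℕ → Fin r → ℤ_[p]),
      EtaleOrbit p h v → ∀ (w : ℕ → Fin N → ℤ) (Ψ : Fin N → MvPolynomial (Fin r) ℤ_[p]),
      (∀ᶠ m in atTop, ∀ i, (w m i : ℤ_[p]) = eval (v m) (Ψ i)) →
      (∀ m, x m 0 = 1 ∧ ∀ l : Fin N, x m l.succ = w m l) →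
      ∀ (C ρ : ℝ) (d : ℕ), 1 ≤ ρ → 1 + ρ ^ (p ^ (d * (r ^ 2 + 2 * r))) < (p : ℝ) ^ d →
      ∃ᶠ m in atTop, C * ρ ^ m < Height.mulHeight (x m)) := by
  refine ⟨fun k _ _ N r s P F x hx hX p _ h v hv w Ψ hΨ Φ hΦ C ρ d hρ1 hρ => ?_,
    fun N r P F x hx hX p _ h v hv w Ψ hΨ hxw C ρ d hρ1 hρ => ?_⟩
  · by_contra hcon
    rw [not_frequently] at hcon
    refine hX (main k P F x hx p h v hv ρ hρ1 d hρ w Ψ C ?_ Φ hΦ)
    filter_upwards [hΨ, hcon] with m e1 e2 i
    exact ⟨e1 i, not_lt.1 fun h3 => e2 ⟨i, h3⟩⟩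
  · by_contra hcon
    rw [not_frequently] at hcon
    refine hX (main ℚ P F x hx p h v hv ρ hρ1 d hρ w Ψ C ?_ (Fin.cons 1 fun l => X l)
      (fun m j => ?_))
    · filter_upwards [hΨ, hcon] with m e1 e2 i
      exact ⟨e1 i, (abs_le_height (w m) (x m) (hxw m).1 (hxw m).2 i).trans (not_lt.1 e2)⟩
    · refine Fin.cases ?_ (fun l => ?_) j
      · rw [Fin.cons_zero, map_one, (hxw m).1]
      · rw [Fin.cons_succ, eval_X, (hxw m).2]

end Pool.Agent.Results.MP_0e7dfd_ag.IntegralOrbits
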