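import Mathlib
import Pool.Agent.X332.KS.Inv

/-!
MP_0e7dfd_ag, Q1: the dynamical degree of a dominant rational self-map with a Zariski-dense orbit
which is linear over an orbit of another rational self-map.
-/

set_option autoImplicit false

namespace Pool.Agent.Results.MP_0e7dfd_ag.OrbitsOverOrbits

open MvPolynomial Filter Height
open Pool.Agent.TH8.OR (GivenBy Invertible)
open Pool.Agent.X332.KS (Irred OrbitGrowth RecD Tower)

/-- The forms in the prime ideal `p` define the projective variety `X`; the forms `F j` of one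
degree are the coordinates of a dominant rational map `f` from `X` to `X` (a form `H` vanishes on
`X` if and only if `H ∘ F` does); and `x` is an orbit of `f` which is Zariski-dense in `X` (at the
points where all `F j` vanish nothing is required of the next point). -/
structure DenseOrbit {k : Type} [Field k] {N : ℕ} (p : Ideal (MvPolynomial (Fin (N + 1)) k))
    (F : Fin (N + 1) → MvPolynomial (Fin (N + 1)) k) (x : ℕ → Fin (N + 1) → k) : Prop where
  prime : p.IsPrime
  forms : ∃ d, ∀ j, (F j).IsHomogeneous d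
  dominant : ∀ (e : ℕ) (H : MvPolynomial (Fin (N + 1)) k), H.IsHomogeneous e →
    (aeval F H ∈ p ↔ H ∈ p)
  ne_zero : ∀ m, x m ≠ 0
  orbit : ∀ m i j, eval (x m) (F i) * x (m + 1) j = eval (x m) (F j) * x (m + 1) i
  dense : ∀ (e : ℕ) (G : MvPolynomial (Fin (N + 1)) k), G.IsHomogeneous e →
    ((∀ m, eval (x m) G = 0) ↔ G ∈ p)

/-- Each coordinate of `x` satisfies (for all large `m`) a nontrivial linear recurrence whose
coefficients are polynomials in `t m`. -/
def Recursive {k : Type} [Field k] {D N : ℕ} (t : ℕ → Fin D → k) (x : ℕ → Fin (N + 1) → k) : Prop :=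
  ∀ j, ∃ (r : ℕ) (a : ℕ → MvPolynomial (Fin D) k),
    (∃ i ≤ r, ¬ ∀ᶠ m in atTop, eval (t m) (a i) = 0) ∧
    ∀ᶠ m in atTop, ∑ i ∈ Finset.range (r + 1), eval (t m) (a i) * x (m + i) j = 0

/-- For all `μ > lam` the iterates `f ^ n` are given by forms of degree `O(μ ^ n)`; so the first
dynamical degree of `f` is at most `lam`. -/
def DegreeLE {k : Type} [Field k] {N : ℕ} (p : Ideal (MvPolynomial (Fin (N + 1)) k))
    (F : Fin (N + 1) → MvPolynomial (Fin (N + 1)) k) (lam : ℝ) : Prop :=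
  ∀ μ : ℝ, lam < μ → ∃ B : ℝ, ∀ n : ℕ, ∃ e : ℕ, (e : ℝ) ≤ B * μ ^ n ∧ GivenBy p F n e

/-- For all `μ` between `1` and `lam` the logarithmic height of `y m` is at least `μ ^ m` for all
large `m`; so the (lower) arithmetic degree is at least `lam`. -/
def HeightGE {k : Type} [Field k] [NumberField k] {ι : Type} (y : ℕ → ι → k) (lam : ℝ) : Prop :=
  ∀ μ : ℝ, 1 < μ → μ < lam → ∀ᶠ m in atTop, μ ^ m ≤ logHeight (y m)

/-- The points `t m` of affine space are, for all large `m`, the values at `x m` of a rational map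
given by the forms `G` of one degree. -/
def Factor {k : Type} [Field k] {D N : ℕ} (t : ℕ → Fin D → k) (x : ℕ → Fin (N + 1) → k) : Prop :=
  ∃ (e : ℕ) (G : Fin (D + 1) → MvPolynomial (Fin (N + 1)) k), (∀ i, (G i).IsHomogeneous e) ∧
    ∀ᶠ m in atTop, eval (x m) (G 0) ≠ 0 ∧
      ∀ i : Fin D, eval (x m) (G i.succ) = t m i * eval (x m) (G 0)

theorem recD {k : Type} [Field k] {D N : ℕ} {t : ℕ → Fin D → k} {x : ℕ → Fin (N + 1) → k}
    (h : Recursive t x) : ∃ C, ∀ j, RecD t C fun m => x m j := by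
  choose r a h1 h2 using h
  refine ⟨Finset.univ.sup fun j : Fin (N + 1) =>
      (Finset.range (r j + 1)).sup fun i => (a j i).totalDegree, fun j =>
      ⟨r j, a j, h1 j, fun i hi => ?_, h2 j⟩⟩
  have e1 : (a j i).totalDegree ≤ (Finset.range (r j + 1)).sup fun i => (a j i).totalDegree :=
    Finset.le_sup (f := fun i => (a j i).totalDegree) (Finset.mem_range.2 (by omega))
  exact e1.trans (Finset.le_sup (f := fun j : Fin (N + 1) =>
    (Finset.range (r j + 1)).sup fun i => (a j i).totalDegree) (Finset.mem_univ j))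

theorem grow {k : Type} [Field k] {N : ℕ} {p : Ideal (MvPolynomial (Fin (N + 1)) k)}
    {F : Fin (N + 1) → MvPolynomial (Fin (N + 1)) k} {x : ℕ → Fin (N + 1) → k}
    (h : DenseOrbit p F x) {D : ℕ} {t : ℕ → Fin D → k} {δ : ℕ → ℕ} (ht : OrbitGrowth t δ)
    (hrec : Recursive t x) :
    ∃ a b : ℕ, ∀ n, ∃ e ≤ a + b * ∑ i ∈ Finset.range n, δ i, GivenBy p F n e := by
  obtain ⟨d, hF⟩ := h.forms
  obtain ⟨C, hC⟩ := recD hrec
  exact Pool.Agent.X332.KS.growth h.prime hF h.dominant h.ne_zero h.orbit h.dense ht hC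

theorem degLE {k : Type} [Field k] {N : ℕ} {p : Ideal (MvPolynomial (Fin (N + 1)) k)}
    {F : Fin (N + 1) → MvPolynomial (Fin (N + 1)) k} {x : ℕ → Fin (N + 1) → k}
    (h : DenseOrbit p F x) {D : ℕ} {t : ℕ → Fin D → k} {δ : ℕ → ℕ} (ht : OrbitGrowth t δ)
    (hrec : Recursive t x) {A lam : ℝ} (h1 : 1 ≤ lam) (hδ : ∀ n, (δ n : ℝ) ≤ A * lam ^ n) :
    DegreeLE p F lam := by
  intro μ hμ
  obtain ⟨a, b, hab⟩ := grow h ht hrec
  obtain ⟨B, hB⟩ := Pool.Agent.X332.KS.exp_of_sum (a := a) (b := b) h1 hδ hμ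
  refine ⟨B, fun n => ?_⟩
  obtain ⟨e, he, h2⟩ := hab n
  exact ⟨e, (Nat.cast_le.2 he).trans (hB n), h2⟩

theorem inv {k : Type} [Field k] {N : ℕ} {p : Ideal (MvPolynomial (Fin (N + 1)) k)}
    {F : Fin (N + 1) → MvPolynomial (Fin (N + 1)) k} {x : ℕ → Fin (N + 1) → k}
    (h : DenseOrbit p F x) {lam : ℝ} (h1 : 1 ≤ lam) (hlam : lam ^ (N + 1) < 2)
    (hd : DegreeLE p F lam) : Invertible p F := by
  obtain ⟨d, hF⟩ := h.forms
  obtain ⟨j0, hj0⟩ := Pool.Agent.TH8.OR.exists_X h.ne_zero h.dense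
  obtain ⟨μ, h2, h3⟩ := Pool.Agent.X332.KS.exists_between_pow (N + 1) hlam
  obtain ⟨B, hB⟩ := hd μ h2
  exact Pool.Agent.X332.KS.invertible_of_exp h.prime hF h.dominant hj0 (by linarith) h3 hB

/-- Let `X` be a projective variety over a field `k`, let `f` be a dominant rational map from `X` to
`X`, and let `x 0, x 1, …` be an orbit of `f` in `X(k)` which is Zariski-dense in `X`.

(1) Let `t` be a Zariski-dense orbit of a rational self-map `g` of an irreducible affine variety of
any dimension, where `g ^ n` has degree at most `δ n`, and suppose that the points `x m` have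
homogeneous coordinates which satisfy nontrivial linear recurrences whose coefficients are
polynomials in `t m`. Then there are `a` and `b` such that for all `n` the iterate `f ^ n` is given by forms of degree at most
`a + b * (δ 0 + … + δ (n - 1))`. If `δ n ≤ A * lam ^ n` for all `n`, where `1 ≤ lam`, then for each
`μ > lam` the iterates `f ^ n` are given by forms of degree `O(μ ^ n)`; and if moreover
`lam ^ (N + 1) < 2`, then `f` is birational.

(2) If `t` is instead a tower of `L` linear systems with irreducible Zariski closure, then the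
iterate `f ^ n` is given by forms of degree at most `c * (n + 1) ^ (L + 1)`, and `f` is
birational.

(3) Let `k` be a number field, let `t`, `δ`, `lam` be as in (1), let the points `t m` be the values
at `x m` of a rational map, and suppose that for each `μ` with `1 < μ < lam` the height of `t m` is at
least `μ ^ m` for all large `m`. Then the iterates `f ^ n` are given by forms of degree `O(μ ^ n)` for
each `μ > lam`, and for each `μ` with `1 < μ < lam` the height of `x m` is at least `μ ^ m` for all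
large `m`. -/
theorem result :
    (∀ (k : Type) [Field k] (N : ℕ) (p : Ideal (MvPolynomial (Fin (N + 1)) k))
      (F : Fin (N + 1) → MvPolynomial (Fin (N + 1)) k) (x : ℕ → Fin (N + 1) → k),
      DenseOrbit p F x →
      (∀ (D : ℕ) (t : ℕ → Fin D → k) (δ : ℕ → ℕ), OrbitGrowth t δ → Recursive t x →
        (∃ a b : ℕ, ∀ n, ∃ e ≤ a + b * ∑ i ∈ Finset.range n, δ i, GivenBy p F n e) ∧
        ∀ A lam : ℝ, 1 ≤ lam → (∀ n, (δ n : ℝ) ≤ A * lam ^ n) →
          DegreeLE p F lam ∧ (lam ^ (N + 1) < 2 → Invertible p F)) ∧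
      (∀ (D L : ℕ) (t : ℕ → Fin D → k), Tower t L → Irred t → Recursive t x →
        (∃ c : ℕ, ∀ n, ∃ e ≤ c * (n + 1) ^ (L + 1), GivenBy p F n e) ∧
          DegreeLE p F 1 ∧ Invertible p F)) ∧
    (∀ (k : Type) [Field k] [NumberField k] (N : ℕ) (p : Ideal (MvPolynomial (Fin (N + 1)) k))
      (F : Fin (N + 1) → MvPolynomial (Fin (N + 1)) k) (x : ℕ → Fin (N + 1) → k),
      DenseOrbit p F x →
      ∀ (D : ℕ) (t : ℕ → Fin D → k) (δ : ℕ → ℕ) (A lam : ℝ), OrbitGrowth t δ → Recursive t x →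
        1 ≤ lam → (∀ n, (δ n : ℝ) ≤ A * lam ^ n) → Factor t x →
        HeightGE (fun m => (Fin.cons 1 (t m) : Fin (D + 1) → k)) lam →
        DegreeLE p F lam ∧ HeightGE x lam) := by
  refine ⟨fun k _ N p F x h => ⟨fun D t δ ht hrec => ⟨grow h ht hrec, fun A lam h1 hδ => ?_⟩,
    fun D L t ht hirr hrec => ?_⟩, fun k _ _ N p F x h D t δ A lam ht hrec h1 hδ hfac hh => ?_⟩
  · have hd := degLE h ht hrec h1 hδ
    exact ⟨hd, fun h2 => inv h h1 h2 hd⟩
  · obtain ⟨c, hc, hg⟩ := ht.growth
    obtain ⟨a, b, hab⟩ := grow h ⟨hirr, hg⟩ hrec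
    have hpoly : ∀ n, a + b * ∑ i ∈ Finset.range n, c * (i + 1) ^ L ≤
        (a + b * c) * (n + 1) ^ (L + 1) := by
      intro n
      have e1 := Pool.Agent.X332.KS.sum_pow_le c L n
      have e2 : 1 ≤ (n + 1) ^ (L + 1) := Nat.one_le_pow _ _ (by omega)
      calc a + b * ∑ i ∈ Finset.range n, c * (i + 1) ^ L
          ≤ a * (n + 1) ^ (L + 1) + b * (c * (n + 1) ^ (L + 1)) :=
            Nat.add_le_add (Nat.le_mul_of_pos_right _ (by omega)) (Nat.mul_le_mul_left _ e1)
        _ = (a + b * c) * (n + 1) ^ (L + 1) := by ring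
    have hd1 : ∀ n, ∃ e ≤ (a + b * c) * (n + 1) ^ (L + 1), GivenBy p F n e := by
      intro n
      obtain ⟨e, he, h2⟩ := hab n
      exact ⟨e, he.trans (hpoly n), h2⟩
    have hd2 : DegreeLE p F 1 := by
      intro μ hμ
      obtain ⟨B, _, hB⟩ := Pool.Agent.X332.KS.poly_le_exp ((a + b * c : ℕ) : ℝ) (L + 1) hμ
      refine ⟨B, fun n => ?_⟩
      obtain ⟨e, he, h2⟩ := hd1 n
      refine ⟨e, ?_, h2⟩
      have e3 : (e : ℝ) ≤ (((a + b * c) * (n + 1) ^ (L + 1) : ℕ) : ℝ) := Nat.cast_le.2 he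
      refine e3.trans ?_
      have e4 := hB n
      push_cast at e4 ⊢
      exact e4
    exact ⟨⟨_, hd1⟩, hd2, inv h le_rfl (by norm_num) hd2⟩
  · obtain ⟨e, G, hG, h2⟩ := hfac
    exact ⟨degLE h ht hrec h1 hδ, Pool.Agent.X332.KS.height_transfer hG h2 hh⟩

end Pool.Agent.Results.MP_0e7dfd_ag.OrbitsOverOrbits
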